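import Pool.Agent.Lib.MP_a7239a_co.GP.Defs

/-!
# Lower bounds
-/

open Finset

namespace Pool.Agent.Lib.MPa7239a.GP

/-- `n` elements of two rows with first coordinates of sum zero lie in one row -/
theorem one_row {n : ℕ} (hn : 2 ≤ n) {S : Finset (ZMod n)} {T : Finset (ZMod n × ZMod n)}
    (hT : T ⊆ {0, 1} ×ˢ S) (hc : #T = n) (h0 : ∑ a ∈ T, a = 0) :
    ∃ v : ZMod n, ∀ a ∈ T, a.1 = v := by
  classical
  have : Fact (1 < n) := ⟨by omega⟩
  have h01 : (0 : ZMod n) ≠ 1 := zero_ne_one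
  have hmem : ∀ a ∈ T, a.1 = 0 ∨ a.1 = 1 := by
    intro a ha
    have := hT ha
    simp only [mem_product, mem_insert, mem_singleton] at this
    exact this.1
  have hfst : ((#(T.filter fun a => a.1 = 1) : ℕ) : ZMod n) = 0 := by
    have h1 : ∑ a ∈ T, a.1 = 0 := by
      rw [← Prod.fst_sum, h0]
      rfl
    rw [← h1, card_filter, Nat.cast_sum]
    refine sum_congr rfl fun a ha => ?_
    rcases hmem a ha with h | h
    · rw [h, if_neg h01]
      simp
    · rw [h, if_pos rfl]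
      simp
  rw [ZMod.natCast_eq_zero_iff] at hfst
  have hle : #(T.filter fun a => a.1 = 1) ≤ n := (card_filter_le _ _).trans hc.le
  rcases Nat.eq_zero_or_pos #(T.filter fun a => a.1 = 1) with h | h
  · refine ⟨0, fun a ha => ?_⟩
    rcases hmem a ha with h1 | h1
    · exact h1
    · rw [card_eq_zero, filter_eq_empty_iff] at h
      exact absurd h1 (h ha)
  · have h2 := Nat.le_of_dvd h hfst
    have h3 : T.filter (fun a => a.1 = 1) = T := by
      apply eq_of_subset_of_card_le (filter_subset _ _)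
      omega
    refine ⟨1, fun a ha => ?_⟩
    rw [← h3, mem_filter] at ha
    exact ha.2

theorem row_injOn {n : ℕ} {T : Finset (ZMod n × ZMod n)} {v : ZMod n} (hv : ∀ a ∈ T, a.1 = v) :
    Set.InjOn Prod.snd (T : Set (ZMod n × ZMod n)) := by
  intro a ha b hb hab
  exact Prod.ext ((hv a ha).trans (hv b hb).symm) hab

theorem low_odd {n : ℕ} (hn : 2 ≤ n) : ∃ A : Finset (ZMod n × ZMod n), #A = 2 * n - 2 ∧
    ∀ T ⊆ A, #T = n → ∑ x ∈ T, x ≠ 0 := by
  classical
  have : Fact (1 < n) := ⟨by omega⟩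
  have : NeZero n := ⟨by omega⟩
  have h01 : (0 : ZMod n) ≠ 1 := zero_ne_one
  refine ⟨{0, 1} ×ˢ univ.erase 0, ?_, ?_⟩
  · rw [card_product, card_pair h01, card_erase_of_mem (mem_univ _), card_univ, ZMod.card]
    omega
  · intro T hT hc h0
    obtain ⟨v, hv⟩ := one_row hn hT hc h0
    have h1 : #T ≤ #((univ : Finset (ZMod n)).erase 0) := by
      apply card_le_card_of_injOn Prod.snd
      · intro a ha
        exact mem_coe.2 (mem_product.1 (hT (mem_coe.1 ha))).2
      · exact row_injOn hv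
    rw [card_erase_of_mem (mem_univ _), card_univ, ZMod.card, hc] at h1
    omega

/-- the sum of all elements of `ZMod n`, `n` even -/
theorem sum_all_even {n : ℕ} [NeZero n] (hn : 2 ≤ n) (h2 : 2 ∣ n) : ∑ z : ZMod n, z ≠ 0 := by
  have h1 : ∑ z : ZMod n, z = ((∑ i ∈ range n, i : ℕ) : ZMod n) := by
    push_cast
    symm
    refine Finset.sum_bij' (fun (d : ℕ) _ => (d : ZMod n)) (fun x _ => x.val) ?_ ?_ ?_ ?_ ?_
    · intro d _; exact mem_univ _
    · intro x _; exact mem_range.2 (ZMod.val_lt x)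
    · intro d hd; exact ZMod.val_natCast_of_lt (mem_range.1 hd)
    · intro x _; exact ZMod.natCast_zmod_val x
    · intro d hd; rfl
  rw [h1, Ne, ZMod.natCast_eq_zero_iff, sum_range_id]
  obtain ⟨h, rfl⟩ := h2
  rw [mul_assoc, Nat.mul_div_cancel_left _ (by norm_num)]
  intro hd
  have h3 : 2 * h ∣ h * (2 * h - 1) := hd
  rw [mul_comm 2 h] at h3
  have h4 : 2 ∣ h * 2 - 1 := Nat.dvd_of_mul_dvd_mul_left (by omega) h3
  omega

theorem low_even {n : ℕ} (hn : 2 ≤ n) (h2 : 2 ∣ n) : ∃ A : Finset (ZMod n × ZMod n),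
    #A = 2 * n ∧ ∀ T ⊆ A, #T = n → ∑ x ∈ T, x ≠ 0 := by
  classical
  have : Fact (1 < n) := ⟨by omega⟩
  have : NeZero n := ⟨by omega⟩
  have h01 : (0 : ZMod n) ≠ 1 := zero_ne_one
  refine ⟨{0, 1} ×ˢ univ, ?_, ?_⟩
  · rw [card_product, card_pair h01, card_univ, ZMod.card]
  · intro T hT hc h0
    obtain ⟨v, hv⟩ := one_row hn hT hc h0
    have himg : T.image Prod.snd = univ := by
      apply eq_univ_of_card
      rw [card_image_of_injOn (row_injOn hv), hc, ZMod.card]
    apply sum_all_even hn h2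
    rw [← himg, sum_image (row_injOn hv), ← Prod.snd_sum, h0]
    rfl

end Pool.Agent.Lib.MPa7239a.GP
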