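import Mathlib

/-!
# The Gao-Thangadurai conjecture for `n = m q`, `q` a large prime: definitions

`G = M × (ZMod q × ZMod q)`, `M` an abelian group of order `m ^ 2` with `m • M = 0`.
-/

open Finset

namespace Pool.Agent.Lib.MPa7239a.GP

/-- `k` distinct elements of `A` have sum `x` -/
def Hit {G : Type*} [AddCommGroup G] (A : Finset G) (k : ℕ) (x : G) : Prop :=
  ∃ T ⊆ A, #T = k ∧ ∑ a ∈ T, a = x

/-- the elements of `B` in the class `v` (first coordinate) -/
def cl {M F : Type*} [DecidableEq M] (B : Finset (M × F)) (v : M) : Finset (M × F) :=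
  B.filter (fun x => x.1 = v)

/-- a family of disjoint pairs of elements of `B`, each pair in one class -/
structure IsPairs {M F : Type*} (B : Finset (M × F)) (P : Finset (Finset (M × F))) : Prop where
  sub : ∀ p ∈ P, p ⊆ B
  two : ∀ p ∈ P, #p = 2
  same : ∀ p ∈ P, ∀ x ∈ p, ∀ x' ∈ p, x.1 = x'.1
  disj : ∀ p ∈ P, ∀ p' ∈ P, p ≠ p' → Disjoint p p'

/-- the choices of one element from each pair have all sums (second coordinate) -/
def Full {M F : Type*} [AddCommGroup M] [AddCommGroup F] [DecidableEq M] [DecidableEq F]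
    (P : Finset (Finset (M × F))) : Prop :=
  ∀ f : F, ∃ T ⊆ P.biUnion id, (∀ p ∈ P, #(T ∩ p) = 1) ∧ (∑ a ∈ T, a).2 = f

/-- `B ⊆ A`, and each class that contains an element of `B` contains `m` elements of `A \ B` -/
structure IsCore {M F : Type*} [DecidableEq M] [DecidableEq F] (m : ℕ)
    (A B : Finset (M × F)) : Prop where
  sub : B ⊆ A
  res : ∀ v, (cl B v).Nonempty → m ≤ #(cl (A \ B) v)

/-- the sums of `N` terms of a multiset `h` of elements of `ZMod q` -/
def Sig {q : ℕ} [NeZero q] (h : ZMod q → ℕ) (N : ℕ) : Set (ZMod q) :=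
  {x | ∃ j : ZMod q → ℕ, (∀ y, j y ≤ h y) ∧ ∑ y, j y = N ∧ ∑ y, j y • y = x}

end Pool.Agent.Lib.MPa7239a.GP
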